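import Mathlib

set_option autoImplicit false

namespace Pool.Agent.Results.MP_acc8c3_co.Cover

open Finset

/-- The subgraph of the complete bipartite graph on `A ⊕ B` formed by the edges of colour `i`. -/
def colourGraph {A B : Type} {k : ℕ} (col : A → B → Fin k) (i : Fin k) : SimpleGraph (A ⊕ B) where
  Adj u v := ∃ a b, col a b = i ∧
    ((u = Sum.inl a ∧ v = Sum.inr b) ∨ (u = Sum.inr b ∧ v = Sum.inl a))
  symm := ⟨by
    rintro u v ⟨a, b, h, h1 | h1⟩
    · exact ⟨a, b, h, Or.inr ⟨h1.2, h1.1⟩⟩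
    · exact ⟨a, b, h, Or.inl ⟨h1.2, h1.1⟩⟩⟩
  loopless := ⟨by
    rintro u ⟨a, b, _, ⟨h1, h2⟩ | ⟨h1, h2⟩⟩ <;> (rw [h1] at h2; cases h2)⟩

/-- Every vertex is incident to an edge of each colour that occurs. -/
def Spanning {A B : Type} {k : ℕ} (col : A → B → Fin k) : Prop :=
  ∀ i : Fin k, (∃ a b, col a b = i) → (∀ a, ∃ b, col a b = i) ∧ (∀ b, ∃ a, col a b = i)

abbrev Row (n : ℕ) := Fin n ⊕ Fin 3
abbrev VA (n : ℕ) := Fin n ⊕ (Fin (n + 3) × Fin (n + 3))
abbrev VB (n : ℕ) := (Row n ≃ Fin (n + 3)) × Fin (n + 3)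
abbrev Lab (n : ℕ) := Fin n ⊕ Option (Fin (n + 3))

def col (n : ℕ) : VA n → VB n → Fin (n + 3)
  | Sum.inl i, y => y.1 (Sum.inl i)
  | Sum.inr z, y => if z = (y.1 (Sum.inr 2), y.2) then y.1 (Sum.inr 2)
      else if z.1 = y.1 (Sum.inr 0) then y.1 (Sum.inr 1) else y.1 (Sum.inr 0)

def rowLab (n : ℕ) (j : Fin (n + 3)) : Row n → Lab n
  | Sum.inl i => Sum.inl i
  | Sum.inr s => if s = 2 then Sum.inr (some j) else Sum.inr none

def lab (n : ℕ) (c : Fin (n + 3)) : VA n ⊕ VB n → Lab n
  | Sum.inl (Sum.inl i) => Sum.inl i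
  | Sum.inl (Sum.inr z) => if z.1 = c then Sum.inr (some z.2) else Sum.inr none
  | Sum.inr y => rowLab n y.2 (y.1.symm c)

theorem lab_edge (n : ℕ) (a : VA n) (y : VB n) :
    lab n (col n a y) (Sum.inl a) = lab n (col n a y) (Sum.inr y) := by
  rcases a with i | z
  · simp [lab, col, rowLab]
  · by_cases h1 : z = (y.1 (Sum.inr 2), y.2)
    · simp [lab, col, rowLab, h1]
    · by_cases h2 : z.1 = y.1 (Sum.inr 0)
      · have h3 : y.1 (Sum.inr 0) ≠ y.1 (Sum.inr 1) := by simp
        have h4 : col n (Sum.inr z) y = y.1 (Sum.inr 1) := by simp only [col, h1, h2, if_true, if_false]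
        rw [h4]
        simp [lab, rowLab, h2]
      · have h4 : col n (Sum.inr z) y = y.1 (Sum.inr 0) := by simp only [col, h1, h2, if_false]
        rw [h4]
        simp [lab, rowLab, h2]

theorem lab_reach (n : ℕ) (c : Fin (n + 3)) (u v : VA n ⊕ VB n)
    (h : (colourGraph (col n) c).Reachable u v) : lab n c u = lab n c v := by
  obtain ⟨w⟩ := h
  induction w with
  | nil => rfl
  | cons hadj _ ih =>
    rw [← ih]
    obtain ⟨a, b, h, ⟨h1, h2⟩ | ⟨h1, h2⟩⟩ := hadj
    · rw [h1, h2, ← h]; exact lab_edge n a b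
    · rw [h1, h2, ← h]; exact (lab_edge n a b).symm

theorem exists_equiv (n : ℕ) (r : Row n) (c : Fin (n + 3)) :
    ∃ e : Row n ≃ Fin (n + 3), e r = c :=
  ⟨finSumFinEquiv.trans (Equiv.swap (finSumFinEquiv r) c), by simp⟩

theorem spanning (n : ℕ) : Spanning (col n) := by
  intro c _
  refine ⟨?_, ?_⟩
  · rintro (i | z)
    · obtain ⟨e, he⟩ := exists_equiv n (Sum.inl i) c
      exact ⟨(e, 0), he⟩
    · by_cases h : z.1 = c
      · obtain ⟨e, he⟩ := exists_equiv n (Sum.inr 2) c
        refine ⟨(e, z.2), ?_⟩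
        have : z = (e (Sum.inr 2), z.2) := by rw [he, ← h]
        simp only [col]
        rw [if_pos this, he]
      · obtain ⟨e, he⟩ := exists_equiv n (Sum.inr 0) c
        obtain ⟨j, hj⟩ := exists_ne z.2
        refine ⟨(e, j), ?_⟩
        have h1 : z ≠ (e (Sum.inr 2), j) := by
          intro h2
          exact hj (by rw [h2])
        simp only [col]
        rw [if_neg h1, he, if_neg h]
  · rintro ⟨e, j⟩
    obtain ⟨r, rfl⟩ := e.surjective c
    rcases r with i | s
    · exact ⟨Sum.inl i, rfl⟩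
    · fin_cases s
      · refine ⟨Sum.inr (e (Sum.inr 1), j), ?_⟩
        simp [col]
      · refine ⟨Sum.inr (e (Sum.inr 0), j), ?_⟩
        simp [col]
      · refine ⟨Sum.inr (e (Sum.inr 2), j), ?_⟩
        simp [col]

theorem count (n : ℕ) (B : Lab n → Finset (Fin (n + 3)))
    (hx : ∀ i, (B (Sum.inl i)).Nonempty)
    (hy : ∀ y : VB n, ∃ r, y.1 r ∈ B (rowLab n y.2 r)) :
    2 * n + 2 ≤ ∑ l, (B l).card := by
  classical
  let F : Finset (Fin (n + 3)) := univ.filter (fun c => ∀ j, c ∈ B (Sum.inr (some j)))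
  let D : Row n → Finset (Fin (n + 3)) := fun r =>
    match r with
    | Sum.inl i => B (Sum.inl i)
    | Sum.inr s => if s = 2 then F else B (Sum.inr none)
  have hall : ¬ ∀ R : Finset (Row n), R.card ≤ (R.biUnion (fun r => (D r)ᶜ)).card := by
    intro h
    obtain ⟨g, hg, hg2⟩ := (Finset.all_card_le_biUnion_card_iff_exists_injective _).mp h
    have hb : Function.Bijective g :=
      (Fintype.bijective_iff_injective_and_card g).mpr ⟨hg, by simp⟩
    have h2 := hg2 (Sum.inr 2)
    simp only [D, F, if_true, mem_compl, mem_filter, mem_univ, true_and, not_forall] at h2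
    obtain ⟨j, hj⟩ := h2
    obtain ⟨r, hr⟩ := hy (Equiv.ofBijective g hb, j)
    have h3 := hg2 r
    rcases r with i | s
    · simp only [D, mem_compl] at h3
      exact h3 hr
    · by_cases hs : s = 2
      · subst hs
        exact hj (by simpa [rowLab] using hr)
      · simp only [D, hs, if_false, mem_compl] at h3
        exact h3 (by simpa [rowLab, hs] using hr)
  push Not at hall
  obtain ⟨R, hR⟩ := hall
  set C := (R.biUnion (fun r => (D r)ᶜ))ᶜ with hC
  have hCc : C.card + (R.biUnion (fun r => (D r)ᶜ)).card = n + 3 := by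
    rw [hC, Finset.card_compl, Fintype.card_fin]
    have := Finset.card_le_univ (R.biUnion (fun r => (D r)ᶜ))
    rw [Fintype.card_fin] at this
    omega
  have hsub : ∀ r ∈ R, C ⊆ D r := by
    intro r hr c hc
    rw [hC, mem_compl, mem_biUnion] at hc
    by_contra h
    exact hc ⟨r, hr, mem_compl.mpr h⟩
  set b := C.card with hb
  let A : Finset (Fin n) := univ.filter (fun i => Sum.inl i ∈ R)
  have hAn : A.card ≤ n := by simpa using Finset.card_le_univ A
  have hRc : R.card = A.card + ((if Sum.inr 0 ∈ R then 1 else 0) + (if Sum.inr 1 ∈ R then 1 else 0)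
      + (if Sum.inr 2 ∈ R then 1 else 0)) := by
    have : R.card = ∑ r : Row n, if r ∈ R then 1 else 0 := by simp
    rw [this, Fintype.sum_sum_type, Fin.sum_univ_three]
    simp [A]
  have hS : A.card * (b - 1) + n ≤ ∑ i : Fin n, (B (Sum.inl i)).card := by
    have h1 : ∑ i : Fin n, ((if i ∈ A then (b - 1) else 0) + 1)
        ≤ ∑ i : Fin n, (B (Sum.inl i)).card := by
      apply Finset.sum_le_sum
      intro i _
      have h0 := (hx i).card_pos
      by_cases hi : i ∈ A
      · have h2 : Sum.inl i ∈ R := by simpa [A] using hi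
        have h3 : b ≤ (B (Sum.inl i)).card := Finset.card_le_card (hsub _ h2)
        rw [if_pos hi]; omega
      · rw [if_neg hi]; omega
    rw [Finset.sum_add_distrib] at h1
    simpa using h1
  rw [Fintype.sum_sum_type, Fintype.sum_option]
  by_cases h2 : Sum.inr 2 ∈ R
  · have hb1 : 0 < b := by
      split_ifs at hRc <;> omega
    obtain ⟨c, hc⟩ := Finset.card_pos.mp hb1
    have hcF := hsub _ h2 hc
    simp only [D, F, if_true, mem_filter, mem_univ, true_and] at hcF
    have h4 : ∑ _j : Fin (n + 3), 1 ≤ ∑ j : Fin (n + 3), (B (Sum.inr (some j))).card :=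
      Finset.sum_le_sum (fun j _ => Finset.card_pos.mpr ⟨c, hcF j⟩)
    simp only [sum_const, card_univ, Fintype.card_fin, smul_eq_mul, mul_one] at h4
    omega
  · by_cases h01 : Sum.inr 0 ∈ R ∨ Sum.inr 1 ∈ R
    · have hT : b ≤ (B (Sum.inr none)).card := by
        rcases h01 with h | h
        · exact Finset.card_le_card (hsub _ h)
        · exact Finset.card_le_card (hsub _ h)
      have h5 : n + 2 ≤ A.card + b := by
        split_ifs at hRc <;> omega
      have h6 : A.card * 1 ≤ A.card * (b - 1) := Nat.mul_le_mul_left _ (by omega)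
      omega
    · push Not at h01
      rw [if_neg h01.1, if_neg h01.2, if_neg h2] at hRc
      obtain ⟨a, ha⟩ : ∃ a, A.card = a + 1 := ⟨A.card - 1, by omega⟩
      obtain ⟨b', hb'⟩ : ∃ b', b = b' + 2 := ⟨b - 2, by omega⟩
      have h7 : A.card * (b - 1) = a * b' + a + b' + 1 := by
        rw [ha, hb']
        have : b' + 2 - 1 = b' + 1 := by omega
        rw [this]; ring
      omega

theorem main (n m : ℕ) (c : Fin m → Fin (n + 3))
    (K : ∀ t, (colourGraph (col n) (c t)).ConnectedComponent)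
    (h : ∀ v, ∃ t, v ∈ (K t).supp) : 2 * n + 2 ≤ m := by
  classical
  have hrep : ∀ t, ∃ l, ∀ v ∈ (K t).supp, lab n (c t) v = l := by
    intro t
    obtain ⟨u, hu⟩ := (K t).nonempty_supp
    exact ⟨lab n (c t) u, fun v hv =>
      lab_reach n _ _ _ (SimpleGraph.ConnectedComponent.reachable_of_mem_supp _ hv hu)⟩
  choose l hl using hrep
  let B : Lab n → Finset (Fin (n + 3)) := fun x => (univ.filter (fun t => l t = x)).image c
  have h1 := count n B (by
    intro i
    obtain ⟨t, ht⟩ := h (Sum.inl (Sum.inl i))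
    exact ⟨c t, mem_image.mpr ⟨t, mem_filter.mpr ⟨mem_univ _, (hl t _ ht).symm⟩, rfl⟩⟩) (by
    intro y
    obtain ⟨t, ht⟩ := h (Sum.inr y)
    refine ⟨y.1.symm (c t), ?_⟩
    rw [Equiv.apply_symm_apply]
    exact mem_image.mpr ⟨t, mem_filter.mpr ⟨mem_univ _, (hl t _ ht).symm⟩, rfl⟩)
  have h2 : ∑ x, (B x).card ≤ ∑ x, (univ.filter (fun t => l t = x)).card :=
    Finset.sum_le_sum (fun x _ => Finset.card_image_le)
  have h3 : ∑ x, (univ.filter (fun t => l t = x)).card = m := by
    rw [← Finset.card_eq_sum_card_fiberwise (s := univ) (t := univ) (fun _ _ => mem_univ _)]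
    simp
  omega

/-- For every k ≥ 1 some complete bipartite graph has a spanning k-colouring whose vertex set
needs at least 2k - 4 monochromatic components to be covered. -/
theorem result (k : ℕ) (hk : 1 ≤ k) :
    ∃ (A B : Type) (_ : Fintype A) (_ : Fintype B) (_ : Nonempty A) (_ : Nonempty B)
      (col : A → B → Fin k), Spanning col ∧
      ∀ (m : ℕ) (c : Fin m → Fin k) (K : ∀ t, (colourGraph col (c t)).ConnectedComponent),
        (∀ v, ∃ t, v ∈ (K t).supp) → 2 * (k : ℤ) - 4 ≤ (m : ℤ) := by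
  by_cases h3 : 3 ≤ k
  · obtain ⟨n, rfl⟩ : ∃ n, k = n + 3 := ⟨k - 3, by omega⟩
    refine ⟨VA n, VB n, inferInstance, inferInstance, ⟨Sum.inr (0, 0)⟩, ⟨(finSumFinEquiv, 0)⟩,
      col n, spanning n, ?_⟩
    intro m c K h
    have := main n m c K h
    push_cast
    omega
  · refine ⟨Unit, Unit, inferInstance, inferInstance, inferInstance, inferInstance,
      fun _ _ => ⟨0, hk⟩, ?_, ?_⟩
    · rintro i ⟨_, _, hi⟩
      exact ⟨fun _ => ⟨(), hi⟩, fun _ => ⟨(), hi⟩⟩
    · intro m _ _ _
      omega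

end Pool.Agent.Results.MP_acc8c3_co.Cover
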